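import Mathlib

/-!
# Locally univalent circle packings of the hexagonal complex (MP_5725d1_gt)

Doyle's question: every locally univalent circle packing for the hexagonal complex `H` in `ℂ` has a
label of the form `c a ^ n b ^ m`; it is a regular hexagonal packing or a Doyle spiral.

Proof. Let `R` be the label and `R'` its translate by one lattice vector, `w = log (R' / R)`. By a
ring lemma for univalent flowers `w` is bounded. On the path `R_s = R exp (s w)` of labels the
derivative of the angle sum at `v` is `∑ C(v, u) (w u - w v)` with symmetric conductances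
`0 < C ≤ 1` (Colin de Verdière). As the angle sums of `R` and `R'` agree, a Caccioppoli inequality
and the recurrence of the triangular lattice (logarithmic cut-off functions) force `w` to be
constant.
-/

set_option autoImplicit false

open scoped BigOperators

namespace Pool.Agent.Results.MP_5725d1_gt.DoyleSpirals

/-! ## Definitions -/

/-- The vertices of the hexagonal complex `H`: `(n, m)` is the vertex `v_{n,m}`. -/
abbrev Vertex : Type := ℤ × ℤ

/-- The point `n + m ω` of the lattice, `ω = exp (i π / 3)`. -/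
noncomputable def latticePoint (v : Vertex) : ℂ :=
  (v.1 : ℂ) + (v.2 : ℂ) * Complex.exp (((Real.pi / 3 : ℝ) : ℂ) * Complex.I)

/-- Two vertices of `H` are adjacent when their lattice points are at distance `1`. -/
def Adjacent (u v : Vertex) : Prop := dist (latticePoint u) (latticePoint v) = 1

/-- The triangle with vertices `p`, `q`, `r` (in this order) is positively oriented. -/
def PositivelyOriented (p q r : ℂ) : Prop := 0 < ((starRingEnd ℂ) (q - p) * (r - p)).im

/-- `⟨v, u, w⟩` is a face of `H`, listed in counterclockwise order. -/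
def IsFace (v u w : Vertex) : Prop :=
  Adjacent v u ∧ Adjacent v w ∧ Adjacent u w ∧
    PositivelyOriented (latticePoint v) (latticePoint u) (latticePoint w)

/-- The angle opposite to the side of length `r` in a Euclidean triangle with side lengths
`p`, `q`, `r`. -/
noncomputable def triangleAngle (p q r : ℝ) : ℝ :=
  Real.arccos ((p ^ 2 + q ^ 2 - r ^ 2) / (2 * p * q))

/-- The angle at the first vertex of the Euclidean triangle whose vertices are the centres of three
mutually tangent circles of radii `a`, `b`, `c`. -/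
noncomputable def faceAngle (a b c : ℝ) : ℝ := triangleAngle (a + b) (a + c) (b + c)

/-- The six neighbours of `0`, in counterclockwise order. -/
def dir (k : Fin 6) : Vertex :=
  ![((1 : ℤ), (0 : ℤ)), (0, 1), (-1, 1), (-1, 0), (0, -1), (1, -1)] k

/-- The angle sum `θ_R(v)`: the sum of the angles at `v` over the six faces
`⟨v, v + dir k, v + dir (k + 1)⟩` at `v`. -/
noncomputable def angleSum (R : Vertex → ℝ) (v : Vertex) : ℝ :=
  ∑ k : Fin 6, faceAngle (R v) (R (v + dir k)) (R (v + dir (k + 1)))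

/-- Packing labels for `H`. -/
structure IsPackingLabel (R : Vertex → ℝ) : Prop where
  pos : ∀ v, 0 < R v
  angleSum_eq : ∀ v, angleSum R v = 2 * Real.pi

/-- The circles with centres `z v` and radii `R v` form a circle packing for `H` in `ℂ`: `R` is a
packing label, circles of adjacent vertices are externally tangent and every face is positively
oriented. The packing may overlap itself globally. -/
structure IsCirclePacking (z : Vertex → ℂ) (R : Vertex → ℝ) : Prop where
  label : IsPackingLabel R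
  tangent : ∀ u v, Adjacent u v → dist (z u) (z v) = R u + R v
  oriented : ∀ v u w, IsFace v u w → PositivelyOriented (z v) (z u) (z w)

/-- The packing is locally univalent: for every vertex `v` the seven circles of the flower at `v`
have pairwise disjoint interiors. -/
def LocallyUnivalent (z : Vertex → ℂ) (R : Vertex → ℝ) : Prop :=
  ∀ v x y, (x = v ∨ Adjacent v x) → (y = v ∨ Adjacent v y) → x ≠ y →
    Disjoint (Metric.ball (z x) (R x)) (Metric.ball (z y) (R y))

/-! ## The combinatorics of `H` -/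

lemma latticePoint_eq (v : Vertex) :
    latticePoint v = ⟨(v.1 : ℝ) + (v.2 : ℝ) / 2, (v.2 : ℝ) * (Real.sqrt 3 / 2)⟩ := by
  unfold latticePoint
  rw [Complex.exp_mul_I, ← Complex.ofReal_cos, ← Complex.ofReal_sin, Real.cos_pi_div_three,
    Real.sin_pi_div_three]
  apply Complex.ext
  · simp
    ring
  · simp

lemma adjacent_iff_sq (u v : Vertex) :
    Adjacent u v ↔ (u.1 - v.1) ^ 2 + (u.1 - v.1) * (u.2 - v.2) + (u.2 - v.2) ^ 2 = 1 := by
  unfold Adjacent
  rw [Complex.dist_eq, latticePoint_eq, latticePoint_eq]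
  have h3 : Real.sqrt 3 ^ 2 = 3 := Real.sq_sqrt (by norm_num)
  have key : ‖(⟨(u.1 : ℝ) + (u.2 : ℝ) / 2, (u.2 : ℝ) * (Real.sqrt 3 / 2)⟩ : ℂ) -
      ⟨(v.1 : ℝ) + (v.2 : ℝ) / 2, (v.2 : ℝ) * (Real.sqrt 3 / 2)⟩‖ ^ 2 =
      (((u.1 - v.1) ^ 2 + (u.1 - v.1) * (u.2 - v.2) + (u.2 - v.2) ^ 2 : ℤ) : ℝ) := by
    rw [← Complex.normSq_eq_norm_sq, Complex.normSq_apply]
    simp only [Complex.sub_re, Complex.sub_im]
    push_cast
    nlinarith [h3]
  constructor
  · intro h
    rw [h] at key
    have : (1 : ℝ) = (((u.1 - v.1) ^ 2 + (u.1 - v.1) * (u.2 - v.2) + (u.2 - v.2) ^ 2 : ℤ) : ℝ) := by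
      rw [← key]; norm_num
    exact_mod_cast this.symm
  · intro h
    rw [h] at key
    have h0 := norm_nonneg ((⟨(u.1 : ℝ) + (u.2 : ℝ) / 2, (u.2 : ℝ) * (Real.sqrt 3 / 2)⟩ : ℂ) -
      ⟨(v.1 : ℝ) + (v.2 : ℝ) / 2, (v.2 : ℝ) * (Real.sqrt 3 / 2)⟩)
    push_cast at key
    nlinarith [key]

/-- The neighbours of a vertex `v` are exactly the six vertices `v + dir k`. -/
lemma adjacent_iff (v u : Vertex) : Adjacent v u ↔ ∃ k, u = v + dir k := by
  rw [adjacent_iff_sq]
  constructor
  · intro h
    obtain ⟨a, b⟩ := v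
    obtain ⟨c, d⟩ := u
    simp only at h
    set x := a - c with hx
    set y := b - d with hy
    have hx2 : x ≤ 1 := by nlinarith [sq_nonneg (x + 2 * y), sq_nonneg (x - 1)]
    have hx3 : -1 ≤ x := by nlinarith [sq_nonneg (x + 2 * y), sq_nonneg (x - 1)]
    have hy2 : y ≤ 1 := by nlinarith [sq_nonneg (2 * x + y), sq_nonneg (y - 1)]
    have hy3 : -1 ≤ y := by nlinarith [sq_nonneg (2 * x + y), sq_nonneg (y - 1)]
    have hc : c = a - x := by omega
    have hd : d = b - y := by omega
    have hxc : x = -1 ∨ x = 0 ∨ x = 1 := by omega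
    have hyc : y = -1 ∨ y = 0 ∨ y = 1 := by omega
    rcases hxc with h1 | h1 | h1 <;> rcases hyc with h2 | h2 | h2 <;> rw [h1, h2] at h <;>
      norm_num at h
    · exact ⟨0, by rw [hc, hd, h1, h2]; simp [dir]⟩
    · exact ⟨5, by rw [hc, hd, h1, h2]; simp [dir]; omega⟩
    · exact ⟨1, by rw [hc, hd, h1, h2]; simp [dir]⟩
    · exact ⟨4, by rw [hc, hd, h1, h2]; simp [dir]; omega⟩
    · exact ⟨2, by rw [hc, hd, h1, h2]; simp [dir]; omega⟩
    · exact ⟨3, by rw [hc, hd, h1, h2]; simp [dir]; omega⟩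
  · rintro ⟨k, rfl⟩
    fin_cases k <;> simp [dir]

lemma adjacent_dir (v : Vertex) (k : Fin 6) : Adjacent v (v + dir k) :=
  (adjacent_iff v _).2 ⟨k, rfl⟩

lemma adjacent_dir_succ (v : Vertex) (k : Fin 6) : Adjacent (v + dir k) (v + dir (k + 1)) := by
  rw [adjacent_iff_sq]
  fin_cases k <;> simp [dir]

lemma dir_injective : Function.Injective dir := by
  intro i j h
  revert i j
  decide

lemma dir_ne_zero (k : Fin 6) : dir k ≠ 0 := by
  revert k
  decide

lemma dir_opp (k : Fin 6) : dir (k + 3) = - dir k := by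
  revert k
  decide

lemma dir_add_four (k : Fin 6) : dir k + dir (k + 3 + 1) = dir (k + 5) := by
  revert k
  decide

lemma dir_add_eight (k : Fin 6) : dir k + dir (k + 3 + 5) = dir (k + 1) := by
  revert k
  decide

lemma fin6_ne (i : Fin 6) : i ≠ i + 2 ∧ i ≠ i + 3 ∧ i ≠ i + 4 ∧ i ≠ i + 5 := by
  revert i
  decide

/-! ## Sanity check: the regular hexagonal packing satisfies the definitions -/

lemma normSq_latticePoint_sub (u v : Vertex) : ‖latticePoint u - latticePoint v‖ ^ 2 =
    (((u.1 - v.1) ^ 2 + (u.1 - v.1) * (u.2 - v.2) + (u.2 - v.2) ^ 2 : ℤ) : ℝ) := by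
  have h3 : Real.sqrt 3 ^ 2 = 3 := Real.sq_sqrt (by norm_num)
  rw [latticePoint_eq, latticePoint_eq, ← Complex.normSq_eq_norm_sq, Complex.normSq_apply]
  simp only [Complex.sub_re, Complex.sub_im]
  push_cast
  nlinarith [h3]

lemma one_le_dist_latticePoint {u v : Vertex} (h : u ≠ v) :
    1 ≤ dist (latticePoint u) (latticePoint v) := by
  have h1 : 1 ≤ (u.1 - v.1) ^ 2 + (u.1 - v.1) * (u.2 - v.2) + (u.2 - v.2) ^ 2 := by
    by_contra hcon
    apply h
    push Not at hcon
    have h2 : (2 * (u.1 - v.1) + (u.2 - v.2)) ^ 2 + 3 * (u.2 - v.2) ^ 2 < 4 := by nlinarith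
    have h3 : (u.2 - v.2) ^ 2 < 2 := by nlinarith [sq_nonneg (2 * (u.1 - v.1) + (u.2 - v.2))]
    have h4 : (u.1 - v.1) ^ 2 < 2 := by nlinarith [sq_nonneg (2 * (u.2 - v.2) + (u.1 - v.1))]
    set x := u.1 - v.1 with hx
    set y := u.2 - v.2 with hy
    have hx1 : x ≤ 1 := by nlinarith
    have hx2 : -1 ≤ x := by nlinarith
    have hy1 : y ≤ 1 := by nlinarith
    have hy2 : -1 ≤ y := by nlinarith
    have hxc : x = -1 ∨ x = 0 ∨ x = 1 := by omega
    have hyc : y = -1 ∨ y = 0 ∨ y = 1 := by omega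
    rcases hxc with k1 | k1 | k1 <;> rcases hyc with k2 | k2 | k2 <;> rw [k1, k2] at hcon <;>
      norm_num at hcon
    ext <;> omega
  have h2 := normSq_latticePoint_sub u v
  rw [dist_eq_norm]
  have h3 : (1 : ℝ) ≤ ‖latticePoint u - latticePoint v‖ ^ 2 := by
    rw [h2]
    exact_mod_cast h1
  nlinarith [norm_nonneg (latticePoint u - latticePoint v)]

/-- The regular hexagonal packing by circles of radius `1` is a locally univalent circle packing
in the sense of the definitions above. -/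
theorem regular_hexagonal_packing :
    IsCirclePacking (fun v => 2 * latticePoint v) (fun _ => 1) ∧
      LocallyUnivalent (fun v => 2 * latticePoint v) (fun _ => 1) := by
  refine ⟨⟨⟨fun _ => one_pos, ?_⟩, ?_, ?_⟩, ?_⟩
  · intro v
    simp only [angleSum, faceAngle, triangleAngle]
    rw [Finset.sum_const, show ((1 + 1) ^ 2 + (1 + 1) ^ 2 - (1 + 1) ^ 2) / (2 * (1 + 1) * (1 + 1)) =
      (1 / 2 : ℝ) by norm_num, ← Real.cos_pi_div_three, Real.arccos_cos (by positivity)
      (by linarith [Real.pi_pos])]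
    simp
    ring
  · intro u v h
    have h1 : dist (latticePoint u) (latticePoint v) = 1 := h
    rw [dist_eq_norm] at h1
    rw [dist_eq_norm, ← mul_sub, norm_mul, h1]
    norm_num
  · intro v u w h
    have h1 := h.2.2.2
    unfold PositivelyOriented at h1 ⊢
    rw [← mul_sub, ← mul_sub, map_mul]
    have h2 : (starRingEnd ℂ) 2 = 2 := Complex.conj_ofNat 2
    rw [h2, mul_mul_mul_comm]
    have h3 : (2 * 2 * ((starRingEnd ℂ) (latticePoint u - latticePoint v) *
        (latticePoint w - latticePoint v))).im = 4 * ((starRingEnd ℂ) (latticePoint u -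
        latticePoint v) * (latticePoint w - latticePoint v)).im := by
      rw [show (2 * 2 : ℂ) = ((4 : ℝ) : ℂ) by norm_num, Complex.im_ofReal_mul]
    rw [h3]
    linarith
  · intro v x y _ _ hxy
    apply Metric.ball_disjoint_ball
    have h1 := one_le_dist_latticePoint hxy
    rw [dist_eq_norm] at h1 ⊢
    rw [← mul_sub, norm_mul]
    simp
    linarith

/-! ## The angles of a face -/

lemma faceAngle_eq {a b c : ℝ} (ha : 0 < a) (hb : 0 < b) (hc : 0 < c) :
    faceAngle a b c = Real.arccos (1 - 2 * (b * c / ((a + b) * (a + c)))) := by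
  unfold faceAngle triangleAngle
  congr 1
  field_simp
  ring

/-- The radius of the circle inscribed in the triangle of the centres. -/
noncomputable def inradius (a b c : ℝ) : ℝ := Real.sqrt (a * b * c / (a + b + c))

lemma inradius_pos {a b c : ℝ} (ha : 0 < a) (hb : 0 < b) (hc : 0 < c) : 0 < inradius a b c := by
  unfold inradius
  positivity

lemma inradius_swap (a b c : ℝ) : inradius a b c = inradius b a c := by
  unfold inradius
  congr 1
  ring

lemma inradius_swap' (a b c : ℝ) : inradius a b c = inradius a c b := by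
  unfold inradius
  congr 1
  ring

lemma inradius_le {a b c : ℝ} (ha : 0 < a) (hb : 0 < b) (hc : 0 < c) :
    inradius a b c ≤ (a + b) / 2 := by
  unfold inradius
  apply Real.sqrt_le_iff.2
  refine ⟨by positivity, ?_⟩
  have h1 : a * b * c / (a + b + c) ≤ a * b := by
    rw [div_le_iff₀ (by positivity)]
    nlinarith [mul_pos ha hb]
  nlinarith [sq_nonneg (a - b)]

/-- The derivative of the angle of a face along a path of labels `exp (x + s X)`. -/
lemma hasDerivAt_faceAngle (x y z X Y Z s : ℝ) :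
    HasDerivAt (fun s => faceAngle (Real.exp (x + s * X)) (Real.exp (y + s * Y))
        (Real.exp (z + s * Z)))
      (inradius (Real.exp (x + s * X)) (Real.exp (y + s * Y)) (Real.exp (z + s * Z)) *
        ((Y - X) / (Real.exp (x + s * X) + Real.exp (y + s * Y)) +
          (Z - X) / (Real.exp (x + s * X) + Real.exp (z + s * Z)))) s := by
  have hexp : ∀ x X : ℝ, HasDerivAt (fun s : ℝ => Real.exp (x + s * X))
      (X * Real.exp (x + s * X)) s := by
    intro x X
    have h1 : HasDerivAt (fun s : ℝ => x + s * X) X s := by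
      simpa using ((hasDerivAt_id s).mul_const X).const_add x
    have := h1.exp
    rwa [mul_comm] at this
  have ha := hexp x X
  have hb := hexp y Y
  have hc := hexp z Z
  have hapos := Real.exp_pos (x + s * X)
  have hbpos := Real.exp_pos (y + s * Y)
  have hcpos := Real.exp_pos (z + s * Z)
  have hg : HasDerivAt (fun s => 1 - 2 * (Real.exp (y + s * Y) * Real.exp (z + s * Z) /
      ((Real.exp (x + s * X) + Real.exp (y + s * Y)) *
        (Real.exp (x + s * X) + Real.exp (z + s * Z)))))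
      (-(2 * ((((Y * Real.exp (y + s * Y)) * Real.exp (z + s * Z) +
          Real.exp (y + s * Y) * (Z * Real.exp (z + s * Z))) *
          ((Real.exp (x + s * X) + Real.exp (y + s * Y)) *
            (Real.exp (x + s * X) + Real.exp (z + s * Z))) -
          Real.exp (y + s * Y) * Real.exp (z + s * Z) *
          ((X * Real.exp (x + s * X) + Y * Real.exp (y + s * Y)) *
            (Real.exp (x + s * X) + Real.exp (z + s * Z)) +
            (Real.exp (x + s * X) + Real.exp (y + s * Y)) *
            (X * Real.exp (x + s * X) + Z * Real.exp (z + s * Z)))) /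
        ((Real.exp (x + s * X) + Real.exp (y + s * Y)) *
          (Real.exp (x + s * X) + Real.exp (z + s * Z))) ^ 2))) s :=
    (((hb.mul hc).div ((ha.add hb).mul (ha.add hc)) (by
      show (Real.exp (x + s * X) + Real.exp (y + s * Y)) *
        (Real.exp (x + s * X) + Real.exp (z + s * Z)) ≠ 0
      positivity)).const_mul 2).const_sub 1
  set a := Real.exp (x + s * X) with hadef
  set b := Real.exp (y + s * Y) with hbdef
  set c := Real.exp (z + s * Z) with hcdef
  have hval1 : 1 - 2 * (b * c / ((a + b) * (a + c))) < 1 := by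
    have : 0 < b * c / ((a + b) * (a + c)) := by positivity
    linarith
  have hval2 : -1 < 1 - 2 * (b * c / ((a + b) * (a + c))) := by
    have : b * c / ((a + b) * (a + c)) < 1 := by
      rw [div_lt_one (by positivity)]
      nlinarith [mul_pos hapos hbpos, mul_pos hapos hcpos, mul_pos hapos hapos]
    linarith
  have harc := (Real.hasDerivAt_arccos (x := 1 - 2 * (b * c / ((a + b) * (a + c))))
    (by linarith) (by linarith))
  have hcomp := harc.comp s hg
  have hsq : Real.sqrt (1 - (1 - 2 * (b * c / ((a + b) * (a + c)))) ^ 2) =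
      2 * (a + b + c) * inradius a b c / ((a + b) * (a + c)) := by
    have hpos : 0 ≤ 2 * (a + b + c) * inradius a b c / ((a + b) * (a + c)) := by
      have := inradius_pos hapos hbpos hcpos
      positivity
    rw [← Real.sqrt_sq hpos]
    congr 1
    have h2 : inradius a b c ^ 2 = a * b * c / (a + b + c) := by
      unfold inradius
      exact Real.sq_sqrt (by positivity)
    rw [div_pow, mul_pow, h2]
    field_simp
    ring
  have hin := inradius_pos hapos hbpos hcpos
  have h2 : inradius a b c ^ 2 = a * b * c / (a + b + c) := by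
    unfold inradius
    exact Real.sq_sqrt (by positivity)
  refine (hcomp.congr_of_eventuallyEq ?_).congr_deriv ?_
  · filter_upwards with t
    rw [faceAngle_eq (Real.exp_pos _) (Real.exp_pos _) (Real.exp_pos _)]
    rfl
  · rw [hsq]
    have hne : inradius a b c ≠ 0 := hin.ne'
    field_simp
    have h3 : inradius a b c ^ 2 * (a + b + c) = a * b * c := by
      rw [h2]; field_simp
    linear_combination (-((a + c) * (Y - X) + (a + b) * (Z - X))) * h3

/-! ## Logarithmic cut-off functions on the lattice -/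

/-- The sup norm of a vertex. -/
def nrm (v : Vertex) : ℕ := max v.1.natAbs v.2.natAbs

lemma nrm_add_dir (v : Vertex) (k : Fin 6) :
    nrm (v + dir k) ≤ nrm v + 1 ∧ nrm v ≤ nrm (v + dir k) + 1 := by
  obtain ⟨a, b⟩ := v
  fin_cases k <;> simp [dir, nrm] <;> omega

/-- The harmonic sum. -/
noncomputable def hs (n : ℕ) : ℝ := ∑ i ∈ Finset.range n, 1 / ((i : ℝ) + 1)

lemma hs_succ (n : ℕ) : hs (n + 1) = hs n + 1 / ((n : ℝ) + 1) := by
  unfold hs
  rw [Finset.sum_range_succ]

lemma hs_zero : hs 0 = 0 := by simp [hs]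

lemma hs_nonneg (n : ℕ) : 0 ≤ hs n := by
  unfold hs
  positivity

lemma hs_mono : Monotone hs := by
  apply monotone_nat_of_le_succ
  intro n
  rw [hs_succ]
  have : (0 : ℝ) ≤ 1 / ((n : ℝ) + 1) := by positivity
  linarith

lemma one_le_hs {n : ℕ} (hn : 1 ≤ n) : 1 ≤ hs n := by
  have h1 : hs 1 = 1 := by
    rw [hs_succ, hs_zero]; norm_num
  rw [← h1]
  exact hs_mono hn

lemma hs_tendsto : Filter.Tendsto hs Filter.atTop Filter.atTop :=
  Real.tendsto_sum_range_one_div_nat_succ_atTop

lemma abs_hs_sub_le {i j : ℕ} (h1 : i ≤ j + 1) (h2 : j ≤ i + 1) :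
    |hs i - hs j| ≤ 1 / (max 1 (j : ℝ)) := by
  have hmax : (0 : ℝ) < max 1 (j : ℝ) := lt_of_lt_of_le one_pos (le_max_left _ _)
  rcases Nat.lt_trichotomy i j with h | h | h
  · obtain rfl : j = i + 1 := by omega
    rw [hs_succ, show hs i - (hs i + 1 / ((i : ℝ) + 1)) = -(1 / ((i : ℝ) + 1)) by ring, abs_neg,
      abs_of_nonneg (by positivity)]
    have : max 1 (((i + 1 : ℕ)) : ℝ) = (i : ℝ) + 1 := by
      push_cast
      apply max_eq_right
      have : (0 : ℝ) ≤ i := Nat.cast_nonneg i
      linarith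
    rw [this]
  · subst h
    simp
  · obtain rfl : i = j + 1 := by omega
    rw [hs_succ, show hs j + 1 / ((j : ℝ) + 1) - hs j = 1 / ((j : ℝ) + 1) by ring,
      abs_of_nonneg (by positivity)]
    apply one_div_le_one_div_of_le hmax
    have : (0 : ℝ) ≤ j := Nat.cast_nonneg j
    apply max_le <;> linarith

/-- The logarithmic cut-off function of radius `N`. -/
noncomputable def cut (N : ℕ) (v : Vertex) : ℝ := max (1 - hs (nrm v) / hs N) 0

lemma cut_nonneg (N : ℕ) (v : Vertex) : 0 ≤ cut N v := le_max_right _ _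

lemma cut_eq_zero {N : ℕ} (hN : 1 ≤ N) {v : Vertex} (hv : N ≤ nrm v) : cut N v = 0 := by
  unfold cut
  apply max_eq_right
  have h1 := one_le_hs hN
  have h2 := hs_mono hv
  have : 1 ≤ hs (nrm v) / hs N := by
    rw [le_div_iff₀ (by linarith)]
    linarith
  linarith

lemma cut_diff_le {N : ℕ} (hN : 1 ≤ N) (v : Vertex) (k : Fin 6) :
    (cut N (v + dir k) - cut N v) ^ 2 ≤
      if nrm v ≤ N then (1 / (max 1 (nrm v : ℝ)) / hs N) ^ 2 else 0 := by
  have h1 := one_le_hs hN
  obtain ⟨ha, hb⟩ := nrm_add_dir v k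
  split_ifs with h
  · rw [← sq_abs]
    apply pow_le_pow_left₀ (abs_nonneg _)
    unfold cut
    refine (abs_max_sub_max_le_abs _ _ _).trans ?_
    rw [show (1 - hs (nrm (v + dir k)) / hs N) - (1 - hs (nrm v) / hs N) =
      -((hs (nrm (v + dir k)) - hs (nrm v)) / hs N) by ring, abs_neg, abs_div,
      abs_of_pos (show 0 < hs N by linarith)]
    gcongr
    exact abs_hs_sub_le ha hb
  · rw [cut_eq_zero hN (v := v) (by omega), cut_eq_zero hN (v := v + dir k) (by omega)]
    simp

/-- The square of vertices containing the support of the cut-off functions. -/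
noncomputable def square (N : ℕ) : Finset Vertex :=
  (Finset.Icc (-(N : ℤ)) N) ×ˢ (Finset.Icc (-(N : ℤ)) N)

lemma mem_square {N : ℕ} {v : Vertex} : v ∈ square N ↔ nrm v ≤ N := by
  unfold square nrm
  simp only [Finset.mem_product, Finset.mem_Icc]
  omega

lemma energy_le {N : ℕ} (hN : 1 ≤ N) (T : Finset (Vertex × Fin 6)) :
    ∑ p ∈ T, (cut N (p.1 + dir p.2) - cut N p.1) ^ 2 ≤ 54 / hs N := by
  have h1 := one_le_hs hN
  have hpos : 0 < hs N := by linarith
  have step1 : ∑ p ∈ T, (cut N (p.1 + dir p.2) - cut N p.1) ^ 2 ≤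
      ∑ p ∈ (square N) ×ˢ (Finset.univ : Finset (Fin 6)),
        (1 / (max 1 (nrm p.1 : ℝ)) / hs N) ^ 2 := by
    calc ∑ p ∈ T, (cut N (p.1 + dir p.2) - cut N p.1) ^ 2
        ≤ ∑ p ∈ T, (if nrm p.1 ≤ N then (1 / (max 1 (nrm p.1 : ℝ)) / hs N) ^ 2 else 0) :=
          Finset.sum_le_sum fun p _ => cut_diff_le hN p.1 p.2
      _ = ∑ p ∈ T with nrm p.1 ≤ N, (1 / (max 1 (nrm p.1 : ℝ)) / hs N) ^ 2 := by
          rw [Finset.sum_filter]
      _ ≤ _ := by
          apply Finset.sum_le_sum_of_subset_of_nonneg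
          · intro p hp
            rw [Finset.mem_filter] at hp
            rw [Finset.mem_product]
            exact ⟨mem_square.2 hp.2, Finset.mem_univ _⟩
          · intro p _ _
            positivity
  have step2 : ∑ p ∈ (square N) ×ˢ (Finset.univ : Finset (Fin 6)),
        (1 / (max 1 (nrm p.1 : ℝ)) / hs N) ^ 2 =
      6 * ∑ v ∈ square N, (1 / (max 1 (nrm v : ℝ)) / hs N) ^ 2 := by
    rw [Finset.sum_product]
    simp [Finset.mul_sum]
  have step3 : ∑ v ∈ square N, (1 / (max 1 (nrm v : ℝ)) / hs N) ^ 2 =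
      ∑ j ∈ Finset.range (N + 1), ∑ v ∈ square N with nrm v = j,
        (1 / (max 1 (nrm v : ℝ)) / hs N) ^ 2 := by
    rw [Finset.sum_fiberwise_of_maps_to]
    intro v hv
    rw [Finset.mem_range]
    have := mem_square.1 hv
    omega
  have step4 : ∀ j : ℕ, ∑ v ∈ square N with nrm v = j, (1 / (max 1 (nrm v : ℝ)) / hs N) ^ 2 ≤
      if j = 0 then 1 / hs N ^ 2 else 8 / (j : ℝ) / hs N ^ 2 := by
    intro j
    have hcard : ((square N).filter (fun v => nrm v = j)).card ≤ (Finset.box j : Finset (ℤ × ℤ)).card := by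
      apply Finset.card_le_card
      intro v hv
      rw [Finset.mem_filter] at hv
      rw [Int.mem_box]
      exact hv.2
    have hsum : ∑ v ∈ square N with nrm v = j, (1 / (max 1 (nrm v : ℝ)) / hs N) ^ 2 =
        ((square N).filter (fun v => nrm v = j)).card * (1 / (max 1 (j : ℝ)) / hs N) ^ 2 := by
      rw [Finset.sum_congr rfl (g := fun _ => (1 / (max 1 (j : ℝ)) / hs N) ^ 2)]
      · rw [Finset.sum_const, nsmul_eq_mul]
      · intro v hv
        rw [Finset.mem_filter] at hv
        rw [hv.2]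
    rw [hsum]
    split_ifs with hj
    · subst hj
      have : ((square N).filter (fun v => nrm v = 0)).card ≤ 1 := by
        refine hcard.trans ?_
        simp
      have h' : (((square N).filter (fun v => nrm v = 0)).card : ℝ) ≤ 1 := by exact_mod_cast this
      calc (((square N).filter (fun v => nrm v = 0)).card : ℝ) *
            (1 / (max 1 ((0 : ℕ) : ℝ)) / hs N) ^ 2
          ≤ 1 * (1 / (max 1 ((0 : ℕ) : ℝ)) / hs N) ^ 2 := by gcongr
        _ = 1 / hs N ^ 2 := by
          simp
    · rw [Int.card_box hj] at hcard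
      have h' : (((square N).filter (fun v => nrm v = j)).card : ℝ) ≤ 8 * j := by exact_mod_cast hcard
      have hj1 : (1 : ℝ) ≤ j := by exact_mod_cast Nat.one_le_iff_ne_zero.2 hj
      rw [max_eq_right hj1]
      calc (((square N).filter (fun v => nrm v = j)).card : ℝ) * (1 / (j : ℝ) / hs N) ^ 2
          ≤ (8 * j) * (1 / (j : ℝ) / hs N) ^ 2 := by gcongr
        _ = 8 / (j : ℝ) / hs N ^ 2 := by
          field_simp
  have step5 : ∑ j ∈ Finset.range (N + 1), (if j = 0 then 1 / hs N ^ 2 else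
      8 / (j : ℝ) / hs N ^ 2) = 1 / hs N ^ 2 + 8 / hs N := by
    rw [Finset.sum_range_succ']
    simp only [Nat.add_eq_zero_iff, one_ne_zero, and_false, if_false, if_true]
    have : ∑ j ∈ Finset.range N, 8 / (((j + 1 : ℕ)) : ℝ) / hs N ^ 2 = 8 * hs N / hs N ^ 2 := by
      rw [← Finset.sum_div]
      congr 1
      conv_rhs => rw [hs, Finset.mul_sum]
      apply Finset.sum_congr rfl
      intro j _
      push_cast
      ring
    rw [this]
    field_simp
    ring
  have step6 : ∑ v ∈ square N, (1 / (max 1 (nrm v : ℝ)) / hs N) ^ 2 ≤ 1 / hs N ^ 2 + 8 / hs N := by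
    rw [step3, ← step5]
    exact Finset.sum_le_sum fun j _ => step4 j
  have step7 : 1 / hs N ^ 2 ≤ 1 / hs N := by
    apply one_div_le_one_div_of_le hpos
    nlinarith
  calc ∑ p ∈ T, (cut N (p.1 + dir p.2) - cut N p.1) ^ 2 ≤ 6 * (1 / hs N ^ 2 + 8 / hs N) := by
        rw [step2] at step1
        linarith
    _ ≤ 6 * (1 / hs N + 8 / hs N) := by linarith
    _ = 54 / hs N := by ring

/-! ## A Liouville theorem for bounded harmonic functions -/

/-- Reversal of oriented edges. -/
def rev : Vertex × Fin 6 ≃ Vertex × Fin 6 where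
  toFun p := (p.1 + dir p.2, p.2 + 3)
  invFun p := (p.1 + dir p.2, p.2 + 3)
  left_inv := by
    rintro ⟨v, k⟩
    simp only [dir_opp, add_neg_cancel_right, Prod.mk.injEq, true_and]
    revert k
    decide
  right_inv := by
    rintro ⟨v, k⟩
    simp only [dir_opp, add_neg_cancel_right, Prod.mk.injEq, true_and]
    revert k
    decide

lemma finite_support_fst {f : Vertex → ℝ} (hf : (Function.support f).Finite)
    (F : Vertex × Fin 6 → ℝ) : (Function.support fun p : Vertex × Fin 6 => f p.1 * F p).Finite := by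
  refine (hf.prod (Set.finite_univ (α := Fin 6))).subset ?_
  intro p hp
  rw [Function.mem_support] at hp
  exact ⟨left_ne_zero_of_mul hp, Set.mem_univ _⟩

lemma summation_by_parts {f : Vertex → ℝ} (hf : (Function.support f).Finite)
    {F : Vertex × Fin 6 → ℝ} (hF : ∀ p, F (rev p) = - F p) :
    ∑ᶠ p : Vertex × Fin 6, (f (p.1 + dir p.2) - f p.1) * F p =
      -2 * ∑ᶠ p : Vertex × Fin 6, f p.1 * F p := by
  have h1 : ∑ᶠ p : Vertex × Fin 6, f (rev p).1 * F (rev p) = ∑ᶠ p : Vertex × Fin 6, f p.1 * F p :=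
    finsum_comp_equiv rev (f := fun p => f p.1 * F p)
  have h2 : ∑ᶠ p : Vertex × Fin 6, f (p.1 + dir p.2) * F p =
      - ∑ᶠ p : Vertex × Fin 6, f p.1 * F p := by
    rw [← h1, ← finsum_neg_distrib]
    apply finsum_congr
    intro p
    rw [hF]
    simp [rev]
  have hfin1 := finite_support_fst hf F
  have hfin2 : (Function.support fun p : Vertex × Fin 6 => f (p.1 + dir p.2) * F p).Finite := by
    have h3 : (Function.support fun p : Vertex × Fin 6 => f (p.1 + dir p.2) * F p) =
        rev ⁻¹' (Function.support fun p : Vertex × Fin 6 => f p.1 * F p) := by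
      ext p
      simp only [Function.mem_support, Set.mem_preimage, hF]
      simp [rev]
    rw [h3]
    exact hfin1.preimage rev.injective.injOn
  calc ∑ᶠ p : Vertex × Fin 6, (f (p.1 + dir p.2) - f p.1) * F p
      = ∑ᶠ p : Vertex × Fin 6, (f (p.1 + dir p.2) * F p - f p.1 * F p) := by
        apply finsum_congr
        intro p
        ring
    _ = ∑ᶠ p : Vertex × Fin 6, f (p.1 + dir p.2) * F p -
        ∑ᶠ p : Vertex × Fin 6, f p.1 * F p := finsum_sub_distrib hfin2 hfin1
    _ = _ := by rw [h2]; ring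

lemma caccioppoli_edge {a b x y M : ℝ} (hx : |x| ≤ M) (hy : |y| ≤ M) :
    (1 / 4) * (a ^ 2 + b ^ 2) * (x - y) ^ 2 - 2 * M ^ 2 * (a - b) ^ 2 ≤
      (x - y) * (a ^ 2 * x - b ^ 2 * y) := by
  have hM : 0 ≤ M := (abs_nonneg x).trans hx
  have hxy : (x + y) ^ 2 ≤ 4 * M ^ 2 := by
    have h1 : |x + y| ≤ 2 * M := (abs_add_le x y).trans (by linarith)
    have h2 := abs_le.1 h1
    nlinarith
  have h3 : (x - y) * (a ^ 2 * x - b ^ 2 * y) =
      (1 / 2) * (a ^ 2 + b ^ 2) * (x - y) ^ 2 + (1 / 2) * (a - b) * (a + b) * (x + y) * (x - y) := by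
    ring
  rw [h3]
  have h4 : 0 ≤ ((a - b) * (x + y) + (1 / 2) * (a + b) * (x - y)) ^ 2 := sq_nonneg _
  have h5 : 0 ≤ (a - b) ^ 2 * (4 * M ^ 2 - (x + y) ^ 2) :=
    mul_nonneg (sq_nonneg _) (by linarith)
  have h6 : 0 ≤ (a - b) ^ 2 * (x - y) ^ 2 := by positivity
  nlinarith [h4, h5, h6]

lemma liouville (w : Vertex → ℝ) (M : ℝ) (hM : ∀ v, |w v| ≤ M)
    (c₀ : Vertex → Fin 6 → ℝ) (hc₀ : ∀ v k, 0 < c₀ v k)
    (H : ∀ f : Vertex → ℝ, (Function.support f).Finite → ∃ C : Vertex → Fin 6 → ℝ,
      (∀ v k, C (v + dir k) (k + 3) = C v k) ∧ (∀ v k, c₀ v k ≤ C v k) ∧ (∀ v k, C v k ≤ 1) ∧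
      ∑ᶠ v, f v * ∑ k, C v k * (w (v + dir k) - w v) = 0)
    (v₀ : Vertex) (k₀ : Fin 6) : w (v₀ + dir k₀) = w v₀ := by
  have main : ∀ N : ℕ, 1 ≤ N → nrm v₀ ≤ N →
      c₀ v₀ k₀ * ((1 / 4) * (cut N v₀) ^ 2 * (w (v₀ + dir k₀) - w v₀) ^ 2) ≤
        108 * M ^ 2 / hs N := by
    intro N hN hv₀
    set f : Vertex → ℝ := fun v => cut N v ^ 2 * w v with hf
    have hfs : (Function.support f).Finite := by
      refine (square N).finite_toSet.subset ?_
      intro v hv
      by_contra hcon
      apply hv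
      have : N ≤ nrm v := by
        by_contra h'
        exact hcon (mem_square.2 (by omega))
      simp [hf, cut_eq_zero hN this]
    obtain ⟨C, hsym, hlow, hup, hsum⟩ := H f hfs
    set F : Vertex × Fin 6 → ℝ := fun p => C p.1 p.2 * (w (p.1 + dir p.2) - w p.1) with hFdef
    have hFrev : ∀ p, F (rev p) = - F p := by
      rintro ⟨v, k⟩
      simp only [hFdef, rev, Equiv.coe_fn_mk, hsym, dir_opp, add_neg_cancel_right]
      ring
    have hsum2 : ∑ᶠ p : Vertex × Fin 6, f p.1 * F p = 0 := by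
      rw [finsum_curry _ (finite_support_fst hfs F), ← hsum]
      apply finsum_congr
      intro v
      rw [finsum_eq_sum_of_fintype, Finset.mul_sum]
    have hparts := summation_by_parts hfs hFrev
    rw [hsum2, mul_zero] at hparts
    set T : Finset (Vertex × Fin 6) := (square (N + 1)) ×ˢ (Finset.univ : Finset (Fin 6)) with hT
    have hTsub : (Function.support fun p : Vertex × Fin 6 => (f (p.1 + dir p.2) - f p.1) * F p) ⊆
        (T : Set (Vertex × Fin 6)) := by
      intro p hp
      by_contra hcon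
      apply hp
      have h1 : N + 1 < nrm p.1 := by
        by_contra h'
        apply hcon
        rw [hT, Finset.mem_coe, Finset.mem_product]
        exact ⟨mem_square.2 (by omega), Finset.mem_univ _⟩
      have h2 := (nrm_add_dir p.1 p.2).2
      simp [hf, cut_eq_zero hN (v := p.1) (by omega),
        cut_eq_zero hN (v := p.1 + dir p.2) (by omega)]
    rw [finsum_eq_sum_of_support_subset _ hTsub] at hparts
    have hterm : ∀ p ∈ T, C p.1 p.2 * ((1 / 4) * (cut N (p.1 + dir p.2) ^ 2 + cut N p.1 ^ 2) *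
        (w (p.1 + dir p.2) - w p.1) ^ 2) -
        2 * M ^ 2 * (cut N (p.1 + dir p.2) - cut N p.1) ^ 2 ≤
        (f (p.1 + dir p.2) - f p.1) * F p := by
      intro p _
      have h1 := caccioppoli_edge (a := cut N (p.1 + dir p.2)) (b := cut N p.1)
        (hM (p.1 + dir p.2)) (hM p.1)
      have h2 : 0 ≤ C p.1 p.2 := (hc₀ _ _).le.trans (hlow _ _)
      have h3 : (f (p.1 + dir p.2) - f p.1) * F p = C p.1 p.2 * ((w (p.1 + dir p.2) - w p.1) *
          (cut N (p.1 + dir p.2) ^ 2 * w (p.1 + dir p.2) - cut N p.1 ^ 2 * w p.1)) := by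
        simp only [hf, hFdef]
        ring
      rw [h3]
      have h4 := mul_le_mul_of_nonneg_left h1 h2
      have h5 : C p.1 p.2 * (2 * M ^ 2 * (cut N (p.1 + dir p.2) - cut N p.1) ^ 2) ≤
          1 * (2 * M ^ 2 * (cut N (p.1 + dir p.2) - cut N p.1) ^ 2) :=
        mul_le_mul_of_nonneg_right (hup _ _) (by positivity)
      linarith
    have hsum3 := Finset.sum_le_sum hterm
    rw [hparts, Finset.sum_sub_distrib, ← Finset.mul_sum] at hsum3
    have hen := energy_le hN T
    have hsingle : C v₀ k₀ * ((1 / 4) * (cut N (v₀ + dir k₀) ^ 2 + cut N v₀ ^ 2) *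
        (w (v₀ + dir k₀) - w v₀) ^ 2) ≤
        ∑ p ∈ T, C p.1 p.2 * ((1 / 4) * (cut N (p.1 + dir p.2) ^ 2 + cut N p.1 ^ 2) *
        (w (p.1 + dir p.2) - w p.1) ^ 2) := by
      apply Finset.single_le_sum (f := fun p : Vertex × Fin 6 => C p.1 p.2 *
        ((1 / 4) * (cut N (p.1 + dir p.2) ^ 2 + cut N p.1 ^ 2) *
        (w (p.1 + dir p.2) - w p.1) ^ 2)) (a := (v₀, k₀))
      · intro p _
        have h2 : 0 ≤ C p.1 p.2 := (hc₀ _ _).le.trans (hlow _ _)
        positivity
      · rw [hT, Finset.mem_product]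
        exact ⟨mem_square.2 (show nrm v₀ ≤ N + 1 by omega), Finset.mem_univ _⟩
    have hlast : c₀ v₀ k₀ * ((1 / 4) * (cut N v₀) ^ 2 * (w (v₀ + dir k₀) - w v₀) ^ 2) ≤
        C v₀ k₀ * ((1 / 4) * (cut N (v₀ + dir k₀) ^ 2 + cut N v₀ ^ 2) *
        (w (v₀ + dir k₀) - w v₀) ^ 2) := by
      apply mul_le_mul (hlow _ _) _ (by positivity) ((hc₀ _ _).le.trans (hlow _ _))
      have : 0 ≤ cut N (v₀ + dir k₀) ^ 2 := sq_nonneg _
      gcongr
      linarith
    have h108 : 2 * M ^ 2 * (54 / hs N) = 108 * M ^ 2 / hs N := by ring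
    have hmul := mul_le_mul_of_nonneg_left hen (show 0 ≤ 2 * M ^ 2 by positivity)
    linarith
  by_contra hne
  have hD : 0 < (w (v₀ + dir k₀) - w v₀) ^ 2 := by
    have : w (v₀ + dir k₀) - w v₀ ≠ 0 := sub_ne_zero.2 hne
    positivity
  set D2 := (w (v₀ + dir k₀) - w v₀) ^ 2 with hD2
  have hc := hc₀ v₀ k₀
  have hlim := hs_tendsto.eventually_ge_atTop
    (max (2 * hs (nrm v₀) + 1) (108 * M ^ 2 * 16 / (c₀ v₀ k₀ * D2) + 1))
  obtain ⟨N, hN1, hN2⟩ := (hlim.and (Filter.eventually_ge_atTop (max 1 (nrm v₀)))).exists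
  have hN3 : 1 ≤ N := (le_max_left _ _).trans hN2
  have hN4 : nrm v₀ ≤ N := (le_max_right _ _).trans hN2
  have hmain := main N hN3 hN4
  have hpos : 0 < hs N := by
    have := one_le_hs hN3
    linarith
  have ha : 2 * hs (nrm v₀) + 1 ≤ hs N := (le_max_left _ _).trans hN1
  have hb : 108 * M ^ 2 * 16 / (c₀ v₀ k₀ * D2) + 1 ≤ hs N := (le_max_right _ _).trans hN1
  have hcut : 1 / 2 ≤ cut N v₀ := by
    unfold cut
    apply le_max_of_le_left
    have : hs (nrm v₀) / hs N ≤ 1 / 2 := by
      rw [div_le_iff₀ hpos]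
      linarith
    linarith
  have hcut2 : 1 / 4 ≤ cut N v₀ ^ 2 := by nlinarith
  have h1 : c₀ v₀ k₀ * ((1 / 4) * (1 / 4) * D2) ≤ 108 * M ^ 2 / hs N := by
    refine le_trans ?_ hmain
    gcongr
  rw [le_div_iff₀ hpos] at h1
  have h2 : 108 * M ^ 2 * 16 / (c₀ v₀ k₀ * D2) < hs N := by linarith
  rw [div_lt_iff₀ (by positivity)] at h2
  nlinarith

/-! ## The ring lemma for univalent flowers -/

lemma chord {P Q : ℂ} {A B : ℝ} (hA : 0 < A) (hB : 0 < B) (hP : ‖P‖ = A) (hQ : ‖Q‖ = B) :
    ‖P - Q‖ ^ 2 = (A - B) ^ 2 + A * B * ‖A⁻¹ • P - B⁻¹ • Q‖ ^ 2 := by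
  rw [@norm_sub_sq_real ℂ, @norm_sub_sq_real ℂ, norm_smul, norm_smul, hP, hQ, inner_smul_left,
    inner_smul_right, Real.norm_of_nonneg (by positivity), Real.norm_of_nonneg (by positivity)]
  simp only [RCLike.conj_to_real]
  field_simp
  ring

/-- The square root of `r / (ρ + r)`. -/
noncomputable def tval (ρ r : ℝ) : ℝ := Real.sqrt (r / (ρ + r))

lemma tval_pos {ρ r : ℝ} (hρ : 0 < ρ) (hr : 0 < r) : 0 < tval ρ r := by
  unfold tval
  positivity

lemma tval_sq {ρ r : ℝ} (hρ : 0 < ρ) (hr : 0 < r) : tval ρ r ^ 2 = r / (ρ + r) := by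
  unfold tval
  exact Real.sq_sqrt (by positivity)

lemma tval_lt_one {ρ r : ℝ} (hρ : 0 < ρ) (hr : 0 < r) : tval ρ r < 1 := by
  have h1 := tval_sq hρ hr
  have h2 : r / (ρ + r) < 1 := by
    rw [div_lt_one (by positivity)]
    linarith
  have h3 := tval_pos hρ hr
  nlinarith

lemma chord_sq {P Q : ℂ} {ρ r s : ℝ} (hρ : 0 < ρ) (hr : 0 < r) (hs : 0 < s) (hP : ‖P‖ = ρ + r)
    (hQ : ‖Q‖ = ρ + s) :
    (ρ + r) * (ρ + s) * (‖(ρ + r)⁻¹ • P - (ρ + s)⁻¹ • Q‖ ^ 2 - (2 * (tval ρ r * tval ρ s)) ^ 2) =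
      ‖P - Q‖ ^ 2 - (r + s) ^ 2 := by
  have h1 := chord (by positivity) (by positivity) hP hQ
  have h2 : (2 * (tval ρ r * tval ρ s)) ^ 2 = 4 * (r / (ρ + r)) * (s / (ρ + s)) := by
    rw [← tval_sq hρ hr, ← tval_sq hρ hs]
    ring
  rw [h2, h1]
  have h3 : (ρ + r) * (ρ + s) * (4 * (r / (ρ + r)) * (s / (ρ + s))) = 4 * r * s := by
    field_simp
  linear_combination -h3

lemma chord_eq {P Q : ℂ} {ρ r s : ℝ} (hρ : 0 < ρ) (hr : 0 < r) (hs : 0 < s) (hP : ‖P‖ = ρ + r)
    (hQ : ‖Q‖ = ρ + s) (h : ‖P - Q‖ = r + s) :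
    ‖(ρ + r)⁻¹ • P - (ρ + s)⁻¹ • Q‖ = 2 * (tval ρ r * tval ρ s) := by
  have h1 := chord_sq hρ hr hs hP hQ
  rw [h, sub_self] at h1
  have h2 : ‖(ρ + r)⁻¹ • P - (ρ + s)⁻¹ • Q‖ ^ 2 = (2 * (tval ρ r * tval ρ s)) ^ 2 := by
    have h3 : (ρ + r) * (ρ + s) ≠ 0 := by positivity
    have := (mul_eq_zero.1 h1).resolve_left h3
    linarith
  have ht := tval_pos hρ hr
  have ht' := tval_pos hρ hs
  exact (sq_eq_sq₀ (norm_nonneg _) (by positivity)).1 h2

lemma chord_ge {P Q : ℂ} {ρ r s : ℝ} (hρ : 0 < ρ) (hr : 0 < r) (hs : 0 < s) (hP : ‖P‖ = ρ + r)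
    (hQ : ‖Q‖ = ρ + s) (h : r + s ≤ ‖P - Q‖) :
    2 * (tval ρ r * tval ρ s) ≤ ‖(ρ + r)⁻¹ • P - (ρ + s)⁻¹ • Q‖ := by
  have h1 := chord_sq hρ hr hs hP hQ
  have h2 : 0 ≤ ‖P - Q‖ ^ 2 - (r + s) ^ 2 := by nlinarith
  rw [← h1] at h2
  have h3 : 0 < (ρ + r) * (ρ + s) := by positivity
  have h4 := nonneg_of_mul_nonneg_right h2 h3
  have ht := tval_pos hρ hr
  have ht' := tval_pos hρ hs
  exact (sq_le_sq₀ (by positivity) (norm_nonneg _)).1 (by linarith)

/-- In a chain of six tangent petals with disjoint interiors two consecutive petals are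
comparable. -/
lemma petal_step {u0 u1 u2 u3 u4 u5 : ℂ} {t0 t1 t2 t3 t4 t5 : ℝ}
    (p0 : 0 < t0) (p1 : 0 < t1) (p2 : 0 < t2) (p3 : 0 < t3) (p4 : 0 < t4) (p5 : 0 < t5)
    (q0 : t0 < 1)
    (h01 : ‖u0 - u1‖ = 2 * (t0 * t1)) (h12 : ‖u1 - u2‖ = 2 * (t1 * t2))
    (h23 : ‖u2 - u3‖ = 2 * (t2 * t3)) (h34 : ‖u3 - u4‖ = 2 * (t3 * t4))
    (h45 : ‖u4 - u5‖ = 2 * (t4 * t5))
    (d02 : 2 * (t0 * t2) ≤ ‖u0 - u2‖) (d03 : 2 * (t0 * t3) ≤ ‖u0 - u3‖)
    (d04 : 2 * (t0 * t4) ≤ ‖u0 - u4‖) (d05 : 2 * (t0 * t5) ≤ ‖u0 - u5‖)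
    (hbig : 1 / 2 ≤ t0 * t1 ∨ 1 / 2 ≤ t1 * t2 ∨ 1 / 2 ≤ t2 * t3 ∨ 1 / 2 ≤ t3 * t4 ∨
      1 / 2 ≤ t4 * t5 ∨ 1 / 2 ≤ t5 * t0) : t0 < 100 * t1 := by
  by_contra hcon
  push Not at hcon
  have e2 : ‖u0 - u2‖ ≤ ‖u0 - u1‖ + ‖u1 - u2‖ := norm_sub_le_norm_sub_add_norm_sub _ _ _
  have e3 : ‖u0 - u3‖ ≤ ‖u0 - u2‖ + ‖u2 - u3‖ := norm_sub_le_norm_sub_add_norm_sub _ _ _
  have e4 : ‖u0 - u4‖ ≤ ‖u0 - u3‖ + ‖u3 - u4‖ := norm_sub_le_norm_sub_add_norm_sub _ _ _
  have e5 : ‖u0 - u5‖ ≤ ‖u0 - u4‖ + ‖u4 - u5‖ := norm_sub_le_norm_sub_add_norm_sub _ _ _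
  have f2 : t0 * t2 ≤ t0 * t1 + t1 * t2 := by linarith
  have f3 : t0 * t3 ≤ t0 * t1 + t1 * t2 + t2 * t3 := by linarith
  have f4 : t0 * t4 ≤ t0 * t1 + t1 * t2 + t2 * t3 + t3 * t4 := by linarith
  have f5 : t0 * t5 ≤ t0 * t1 + t1 * t2 + t2 * t3 + t3 * t4 + t4 * t5 := by linarith
  have g2 : t2 ≤ 2 * t1 := by
    by_contra h
    push Not at h
    nlinarith
  have g3 : t3 ≤ 2 * t1 := by
    by_contra h
    push Not at h
    nlinarith
  have g4 : t4 ≤ 2 * t1 := by
    by_contra h
    push Not at h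
    nlinarith
  have g5 : t5 ≤ 2 * t1 := by
    by_contra h
    push Not at h
    nlinarith
  have k1 : t1 ≤ 1 / 100 := by linarith
  rcases hbig with h | h | h | h | h | h <;> nlinarith

lemma exists_big {R : Vertex → ℝ} (hR : IsPackingLabel R) (v : Vertex) :
    ∃ k : Fin 6, 1 / 2 ≤ tval (R v) (R (v + dir k)) * tval (R v) (R (v + dir (k + 1))) := by
  by_contra hcon
  push Not at hcon
  have hlt : ∀ k : Fin 6, faceAngle (R v) (R (v + dir k)) (R (v + dir (k + 1))) < Real.pi / 3 := by
    intro k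
    have ha := hR.pos v
    have hb := hR.pos (v + dir k)
    have hc := hR.pos (v + dir (k + 1))
    rw [faceAngle_eq ha hb hc]
    have h1 := hcon k
    have h2 := tval_pos ha hb
    have h3 := tval_pos ha hc
    have h4 : R (v + dir k) * R (v + dir (k + 1)) /
        ((R v + R (v + dir k)) * (R v + R (v + dir (k + 1)))) =
        (tval (R v) (R (v + dir k)) * tval (R v) (R (v + dir (k + 1)))) ^ 2 := by
      rw [mul_pow, tval_sq ha hb, tval_sq ha hc]
      field_simp
    rw [h4]
    have h5 : (tval (R v) (R (v + dir k)) * tval (R v) (R (v + dir (k + 1)))) ^ 2 < 1 / 4 := by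
      have := mul_pos h2 h3
      nlinarith
    by_contra h6
    push Not at h6
    have h7 := Real.cos_le_cos_of_nonneg_of_le_pi (by positivity) (Real.arccos_le_pi _) h6
    rw [Real.cos_pi_div_three, Real.cos_arccos] at h7
    · linarith
    · nlinarith [sq_nonneg (tval (R v) (R (v + dir k)) * tval (R v) (R (v + dir (k + 1))))]
    · nlinarith [sq_nonneg (tval (R v) (R (v + dir k)) * tval (R v) (R (v + dir (k + 1))))]
  have hsum : angleSum R v < ∑ _k : Fin 6, Real.pi / 3 := by
    unfold angleSum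
    apply Finset.sum_lt_sum_of_nonempty Finset.univ_nonempty
    intro k _
    exact hlt k
  rw [hR.angleSum_eq v] at hsum
  simp at hsum
  linarith

lemma petal_lower {z : Vertex → ℂ} {R : Vertex → ℝ} (h : IsCirclePacking z R)
    (hu : LocallyUnivalent z R) (v : Vertex) (k : Fin 6) :
    1 / (2 * 100 ^ 5) ≤ tval (R v) (R (v + dir k)) := by
  have hR := h.label
  set t : Fin 6 → ℝ := fun k => tval (R v) (R (v + dir k)) with ht
  set U : Fin 6 → ℂ := fun k => (R v + R (v + dir k))⁻¹ • (z (v + dir k) - z v) with hU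
  have tpos : ∀ k, 0 < t k := fun k => tval_pos (hR.pos v) (hR.pos _)
  have tlt : ∀ k, t k < 1 := fun k => tval_lt_one (hR.pos v) (hR.pos _)
  have hnorm : ∀ k, ‖z (v + dir k) - z v‖ = R v + R (v + dir k) := by
    intro k
    rw [← dist_eq_norm, dist_comm]
    exact h.tangent _ _ (adjacent_dir v k)
  have hcons : ∀ k, ‖U k - U (k + 1)‖ = 2 * (t k * t (k + 1)) := by
    intro k
    apply chord_eq (hR.pos v) (hR.pos _) (hR.pos _) (hnorm k) (hnorm (k + 1))
    rw [sub_sub_sub_cancel_right, ← dist_eq_norm]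
    exact h.tangent _ _ (adjacent_dir_succ v k)
  have hpair : ∀ i j, i ≠ j → 2 * (t i * t j) ≤ ‖U i - U j‖ := by
    intro i j hij
    apply chord_ge (hR.pos v) (hR.pos _) (hR.pos _) (hnorm i) (hnorm j)
    rw [sub_sub_sub_cancel_right, ← dist_eq_norm]
    have hne : v + dir i ≠ v + dir j := fun he => hij (dir_injective (add_left_cancel he))
    have hdisj := hu v (v + dir i) (v + dir j) (Or.inr (adjacent_dir v i))
      (Or.inr (adjacent_dir v j)) hne
    exact (disjoint_ball_ball_iff (hR.pos _) (hR.pos _)).1 hdisj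
  obtain ⟨m, hm⟩ := exists_big hR v
  have hm' : 1 / 2 ≤ t m * t (m + 1) := hm
  have hstep : ∀ i, t i < 100 * t (i + 1) := by
    intro i
    have e12 : i + 1 + 1 = i + 2 := by rw [add_assoc]; rfl
    have e23 : i + 2 + 1 = i + 3 := by rw [add_assoc]; rfl
    have e34 : i + 3 + 1 = i + 4 := by rw [add_assoc]; rfl
    have e45 : i + 4 + 1 = i + 5 := by rw [add_assoc]; rfl
    have e50 : i + 5 + 1 = i := by rw [add_assoc, show (5 : Fin 6) + 1 = 0 from rfl, add_zero]
    have c1 := hcons (i + 1)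
    have c2 := hcons (i + 2)
    have c3 := hcons (i + 3)
    have c4 := hcons (i + 4)
    rw [e12] at c1
    rw [e23] at c2
    rw [e34] at c3
    rw [e45] at c4
    obtain ⟨n2, n3, n4, n5⟩ := fin6_ne i
    have hmi : m = i ∨ m = i + 1 ∨ m = i + 2 ∨ m = i + 3 ∨ m = i + 4 ∨ m = i + 5 := by
      clear * -
      revert m i
      decide
    refine petal_step (tpos i) (tpos (i + 1)) (tpos (i + 2)) (tpos (i + 3)) (tpos (i + 4))
      (tpos (i + 5)) (tlt i) (hcons i) c1 c2 c3 c4 (hpair _ _ n2) (hpair _ _ n3) (hpair _ _ n4)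
      (hpair _ _ n5) ?_
    rcases hmi with rfl | rfl | rfl | rfl | rfl | rfl
    · exact Or.inl hm'
    · rw [e12] at hm'
      exact Or.inr (Or.inl hm')
    · rw [e23] at hm'
      exact Or.inr (Or.inr (Or.inl hm'))
    · rw [e34] at hm'
      exact Or.inr (Or.inr (Or.inr (Or.inl hm')))
    · rw [e45] at hm'
      exact Or.inr (Or.inr (Or.inr (Or.inr (Or.inl hm'))))
    · rw [e50] at hm'
      exact Or.inr (Or.inr (Or.inr (Or.inr (Or.inr hm'))))
  have h0 : 1 / 2 ≤ t m := by nlinarith [tpos m, tpos (m + 1), tlt (m + 1)]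
  have s0 := hstep m
  have s1 := hstep (m + 1)
  have s2 := hstep (m + 2)
  have s3 := hstep (m + 3)
  have s4 := hstep (m + 4)
  rw [show m + 1 + 1 = m + 2 by rw [add_assoc]; rfl] at s1
  rw [show m + 2 + 1 = m + 3 by rw [add_assoc]; rfl] at s2
  rw [show m + 3 + 1 = m + 4 by rw [add_assoc]; rfl] at s3
  rw [show m + 4 + 1 = m + 5 by rw [add_assoc]; rfl] at s4
  have hk : k = m ∨ k = m + 1 ∨ k = m + 2 ∨ k = m + 3 ∨ k = m + 4 ∨ k = m + 5 := by
    clear * -
    revert m k
    decide
  show 1 / (2 * 100 ^ 5) ≤ t k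
  rcases hk with rfl | rfl | rfl | rfl | rfl | rfl <;> norm_num <;> linarith

/-- Ring lemma: the radii of two adjacent circles of a locally univalent packing are
comparable. -/
lemma radius_lower {z : Vertex → ℂ} {R : Vertex → ℝ} (h : IsCirclePacking z R)
    (hu : LocallyUnivalent z R) (v : Vertex) (k : Fin 6) :
    (1 / (2 * 100 ^ 5)) ^ 2 * R v ≤ R (v + dir k) := by
  have h1 := petal_lower h hu v k
  have h2 : (1 / (2 * 100 ^ 5) : ℝ) ^ 2 ≤ tval (R v) (R (v + dir k)) ^ 2 := by gcongr
  have ha := h.label.pos v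
  have hb := h.label.pos (v + dir k)
  rw [tval_sq ha hb, le_div_iff₀ (by positivity)] at h2
  have : 0 ≤ (1 / (2 * 100 ^ 5) : ℝ) ^ 2 * R (v + dir k) := by positivity
  linarith

lemma log_ratio_le {z : Vertex → ℂ} {R : Vertex → ℝ} (h : IsCirclePacking z R)
    (hu : LocallyUnivalent z R) (v : Vertex) (k : Fin 6) :
    |Real.log (R (v + dir k)) - Real.log (R v)| ≤ -Real.log ((1 / (2 * 100 ^ 5)) ^ 2) := by
  have ha := h.label.pos v
  have hb := h.label.pos (v + dir k)
  have h1 := radius_lower h hu v k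
  have h2 := radius_lower h hu (v + dir k) (k + 3)
  rw [dir_opp, add_neg_cancel_right] at h2
  have hc : (0 : ℝ) < (1 / (2 * 100 ^ 5)) ^ 2 := by positivity
  have l1 := Real.log_le_log (by positivity) h1
  have l2 := Real.log_le_log (by positivity) h2
  rw [Real.log_mul hc.ne' ha.ne'] at l1
  rw [Real.log_mul hc.ne' hb.ne'] at l2
  rw [abs_le]
  constructor <;> linarith

/-! ## The path of labels between a label and its translate -/

/-- The conductance of the edge from `v` in direction `k` for the label `S`. -/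
noncomputable def cond (S : Vertex → ℝ) (v : Vertex) (k : Fin 6) : ℝ :=
  (inradius (S v) (S (v + dir k)) (S (v + dir (k + 1))) +
    inradius (S v) (S (v + dir k)) (S (v + dir (k + 5)))) / (S v + S (v + dir k))

lemma cond_symm (S : Vertex → ℝ) (v : Vertex) (k : Fin 6) :
    cond S (v + dir k) (k + 3) = cond S v k := by
  have h1 : v + dir k + dir (k + 3) = v := by rw [dir_opp, add_neg_cancel_right]
  have h2 : v + dir k + dir (k + 3 + 1) = v + dir (k + 5) := by
    rw [add_assoc, dir_add_four]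
  have h3 : v + dir k + dir (k + 3 + 5) = v + dir (k + 1) := by
    rw [add_assoc, dir_add_eight]
  unfold cond
  rw [h1, h2, h3, inradius_swap (S (v + dir k)) (S v), inradius_swap (S (v + dir k)) (S v),
    add_comm (S (v + dir k)) (S v), add_comm (inradius _ _ (S (v + dir (k + 5))))]

lemma cond_le_one {S : Vertex → ℝ} (hS : ∀ v, 0 < S v) (v : Vertex) (k : Fin 6) :
    cond S v k ≤ 1 := by
  unfold cond
  have ha := hS v
  have hb := hS (v + dir k)
  rw [div_le_one (by positivity)]
  have h1 := inradius_le ha hb (hS (v + dir (k + 1)))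
  have h2 := inradius_le ha hb (hS (v + dir (k + 5)))
  linarith

lemma cond_lower {S lo hi : Vertex → ℝ} (hlo : ∀ v, 0 < lo v) (h1 : ∀ v, lo v ≤ S v)
    (h2 : ∀ v, S v ≤ hi v) (v : Vertex) (k : Fin 6) :
    Real.sqrt (lo v * lo (v + dir k) * lo (v + dir (k + 1)) /
      (hi v + hi (v + dir k) + hi (v + dir (k + 1)))) / (hi v + hi (v + dir k)) ≤ cond S v k := by
  have hS : ∀ v, 0 < S v := fun v => (hlo v).trans_le (h1 v)
  have hhi : ∀ v, 0 < hi v := fun v => (hS v).trans_le (h2 v)
  unfold cond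
  have p1 := hS v
  have p2 := hS (v + dir k)
  have p3 := hS (v + dir (k + 1))
  have p4 := hS (v + dir (k + 5))
  have q1 := hhi v
  have q2 := hhi (v + dir k)
  have q3 := hhi (v + dir (k + 1))
  have r1 := hlo v
  have r2 := hlo (v + dir k)
  have r3 := hlo (v + dir (k + 1))
  have s1 := h1 v
  have s2 := h1 (v + dir k)
  have s3 := h1 (v + dir (k + 1))
  have u1 := h2 v
  have u2 := h2 (v + dir k)
  have u3 := h2 (v + dir (k + 1))
  apply div_le_div₀ (by have := inradius_pos p1 p2 p3; have := inradius_pos p1 p2 p4; positivity)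
    _ (by positivity) (by linarith)
  have h3 : Real.sqrt (lo v * lo (v + dir k) * lo (v + dir (k + 1)) /
      (hi v + hi (v + dir k) + hi (v + dir (k + 1)))) ≤
      inradius (S v) (S (v + dir k)) (S (v + dir (k + 1))) := by
    unfold inradius
    apply Real.sqrt_le_sqrt
    apply div_le_div₀ (by positivity) _ (by positivity) (by linarith)
    gcongr
  have := inradius_pos p1 p2 p4
  linarith

/-- The derivative of the angle sum along a path of labels (Colin de Verdière). -/
lemma hasDerivAt_angleSum (L w : Vertex → ℝ) (v : Vertex) (s : ℝ) :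
    HasDerivAt (fun s => angleSum (fun u => Real.exp (L u + s * w u)) v)
      (∑ k, cond (fun u => Real.exp (L u + s * w u)) v k * (w (v + dir k) - w v)) s := by
  have h1 : HasDerivAt (fun s => angleSum (fun u => Real.exp (L u + s * w u)) v)
      (∑ k : Fin 6, (inradius (Real.exp (L v + s * w v)) (Real.exp (L (v + dir k) + s * w (v + dir k)))
        (Real.exp (L (v + dir (k + 1)) + s * w (v + dir (k + 1)))) *
        ((w (v + dir k) - w v) / (Real.exp (L v + s * w v) +
          Real.exp (L (v + dir k) + s * w (v + dir k))) +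
          (w (v + dir (k + 1)) - w v) / (Real.exp (L v + s * w v) +
          Real.exp (L (v + dir (k + 1)) + s * w (v + dir (k + 1))))))) s := by
    unfold angleSum
    exact HasDerivAt.fun_sum fun k _ => hasDerivAt_faceAngle _ _ _ _ _ _ s
  refine h1.congr_deriv ?_
  set S : Vertex → ℝ := fun u => Real.exp (L u + s * w u) with hS
  have h2 : ∑ k : Fin 6, inradius (S v) (S (v + dir k)) (S (v + dir (k + 1))) *
      ((w (v + dir (k + 1)) - w v) / (S v + S (v + dir (k + 1)))) =
      ∑ k : Fin 6, inradius (S v) (S (v + dir k)) (S (v + dir (k + 5))) *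
      ((w (v + dir k) - w v) / (S v + S (v + dir k))) := by
    rw [← Equiv.sum_comp (Equiv.addRight (1 : Fin 6))
      (fun k => inradius (S v) (S (v + dir k)) (S (v + dir (k + 5))) *
      ((w (v + dir k) - w v) / (S v + S (v + dir k))))]
    apply Finset.sum_congr rfl
    intro k _
    have h3 : k + 1 + 5 = k := by
      rw [add_assoc, show (1 : Fin 6) + 5 = 0 from rfl, add_zero]
    simp only [Equiv.coe_addRight]
    rw [h3, inradius_swap' (S v) (S (v + dir k))]
  calc ∑ k : Fin 6, (inradius (S v) (S (v + dir k)) (S (v + dir (k + 1))) *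
        ((w (v + dir k) - w v) / (S v + S (v + dir k)) +
          (w (v + dir (k + 1)) - w v) / (S v + S (v + dir (k + 1)))))
      = ∑ k : Fin 6, inradius (S v) (S (v + dir k)) (S (v + dir (k + 1))) *
        ((w (v + dir k) - w v) / (S v + S (v + dir k))) +
        ∑ k : Fin 6, inradius (S v) (S (v + dir k)) (S (v + dir (k + 1))) *
        ((w (v + dir (k + 1)) - w v) / (S v + S (v + dir (k + 1)))) := by
        rw [← Finset.sum_add_distrib]
        apply Finset.sum_congr rfl
        intro k _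
        ring
    _ = _ := by
        rw [h2, ← Finset.sum_add_distrib]
        apply Finset.sum_congr rfl
        intro k _
        unfold cond
        ring

/-- The logarithmic increments of the label of a locally univalent packing are constant. -/
lemma increment_const {z : Vertex → ℂ} {R : Vertex → ℝ} (h : IsCirclePacking z R)
    (hu : LocallyUnivalent z R) (j : Fin 6) (v : Vertex) (k : Fin 6) :
    Real.log (R (v + dir k + dir j)) - Real.log (R (v + dir k)) =
      Real.log (R (v + dir j)) - Real.log (R v) := by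
  have hR := h.label
  set w : Vertex → ℝ := fun v => Real.log (R (v + dir j)) - Real.log (R v) with hw
  set lo : Vertex → ℝ := fun v => min (R v) (R (v + dir j)) with hlo
  set hi : Vertex → ℝ := fun v => max (R v) (R (v + dir j)) with hhi
  have hlopos : ∀ v, 0 < lo v := fun v => lt_min (hR.pos _) (hR.pos _)
  have hhipos : ∀ v, 0 < hi v := fun v => lt_max_of_lt_left (hR.pos _)
  refine liouville w (-Real.log ((1 / (2 * 100 ^ 5)) ^ 2)) (fun v => log_ratio_le h hu v j)
    (fun v k => Real.sqrt (lo v * lo (v + dir k) * lo (v + dir (k + 1)) /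
      (hi v + hi (v + dir k) + hi (v + dir (k + 1)))) / (hi v + hi (v + dir k))) ?_ ?_ v k
  · intro v k
    have q1 := hhipos v
    have q2 := hhipos (v + dir k)
    have q3 := hhipos (v + dir (k + 1))
    have r1 := hlopos v
    have r2 := hlopos (v + dir k)
    have r3 := hlopos (v + dir (k + 1))
    positivity
  · intro f hf
    set G : ℝ → ℝ := fun s => ∑ v ∈ hf.toFinset,
      f v * angleSum (fun u => Real.exp (Real.log (R u) + s * w u)) v with hG
    have hGderiv : ∀ s, HasDerivAt G (∑ v ∈ hf.toFinset, f v *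
        ∑ k, cond (fun u => Real.exp (Real.log (R u) + s * w u)) v k * (w (v + dir k) - w v)) s := by
      intro s
      exact HasDerivAt.fun_sum fun v _ =>
        (hasDerivAt_angleSum (fun u => Real.log (R u)) w v s).const_mul (f v)
    have hG0 : G 0 = ∑ v ∈ hf.toFinset, f v * (2 * Real.pi) := by
      apply Finset.sum_congr rfl
      intro v _
      rw [← hR.angleSum_eq v]
      congr 2
      funext u
      rw [zero_mul, add_zero, Real.exp_log (hR.pos u)]
    have hG1 : G 1 = ∑ v ∈ hf.toFinset, f v * (2 * Real.pi) := by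
      apply Finset.sum_congr rfl
      intro v _
      rw [← hR.angleSum_eq (v + dir j)]
      have h1 : (fun u => Real.exp (Real.log (R u) + 1 * w u)) = fun u => R (u + dir j) := by
        funext u
        rw [hw, one_mul, add_sub_cancel, Real.exp_log (hR.pos _)]
      rw [h1]
      congr 1
      unfold angleSum
      apply Finset.sum_congr rfl
      intro k _
      show faceAngle (R (v + dir j)) (R (v + dir k + dir j)) (R (v + dir (k + 1) + dir j)) = _
      rw [add_right_comm v (dir k), add_right_comm v (dir (k + 1))]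
    obtain ⟨s, hs, hs0⟩ := exists_hasDerivAt_eq_zero (f := G)
      (f' := fun s => ∑ v ∈ hf.toFinset, f v *
        ∑ k, cond (fun u => Real.exp (Real.log (R u) + s * w u)) v k * (w (v + dir k) - w v))
      (zero_lt_one) (fun s _ => (hGderiv s).continuousAt.continuousWithinAt)
      (hG0.trans hG1.symm) (fun s _ => hGderiv s)
    refine ⟨cond (fun u => Real.exp (Real.log (R u) + s * w u)), cond_symm _, ?_,
      cond_le_one fun v => Real.exp_pos _, ?_⟩
    · apply cond_lower hlopos
      · intro u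
        have h1 : min (Real.log (R u)) (Real.log (R (u + dir j))) ≤ Real.log (R u) + s * w u := by
          rw [hw]
          rcases le_total (Real.log (R u)) (Real.log (R (u + dir j))) with h2 | h2
          · rw [min_eq_left h2]
            nlinarith [hs.1, mul_nonneg hs.1.le (sub_nonneg.2 h2)]
          · rw [min_eq_right h2]
            nlinarith [hs.1, mul_nonneg (sub_nonneg.2 hs.2.le) (sub_nonneg.2 h2)]
        have h2 : lo u = Real.exp (min (Real.log (R u)) (Real.log (R (u + dir j)))) := by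
          rw [Real.exp_monotone.map_min, Real.exp_log (hR.pos _), Real.exp_log (hR.pos _)]
        rw [h2]
        exact Real.exp_le_exp.2 h1
      · intro u
        have h1 : Real.log (R u) + s * w u ≤ max (Real.log (R u)) (Real.log (R (u + dir j))) := by
          rw [hw]
          rcases le_total (Real.log (R u)) (Real.log (R (u + dir j))) with h2 | h2
          · rw [max_eq_right h2]
            nlinarith [hs.1, mul_nonneg (sub_nonneg.2 hs.2.le) (sub_nonneg.2 h2)]
          · rw [max_eq_left h2]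
            nlinarith [hs.1, mul_nonneg hs.1.le (sub_nonneg.2 h2)]
        have h2 : hi u = Real.exp (max (Real.log (R u)) (Real.log (R (u + dir j)))) := by
          rw [Real.exp_monotone.map_max, Real.exp_log (hR.pos _), Real.exp_log (hR.pos _)]
        rw [h2]
        exact Real.exp_le_exp.2 h1
    · rw [finsum_eq_sum_of_support_subset (s := hf.toFinset)]
      · exact hs0
      · intro v hv
        rw [Function.mem_support] at hv
        rw [Set.Finite.coe_toFinset]
        exact left_ne_zero_of_mul hv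

lemma const_of_step {g : Vertex → ℝ} (h0 : ∀ v, g (v + dir 0) = g v)
    (h1 : ∀ v, g (v + dir 1) = g v) (n m : ℤ) : g (n, m) = g (0, 0) := by
  have a0 : ∀ n m : ℤ, g (n + 1, m) = g (n, m) := by
    intro n m
    have := h0 (n, m)
    simpa [dir] using this
  have a1 : ∀ n m : ℤ, g (n, m + 1) = g (n, m) := by
    intro n m
    have := h1 (n, m)
    simpa [dir] using this
  have b0 : ∀ n m : ℤ, g (n, m) = g (0, m) := by
    intro n m
    induction n using Int.induction_on with
    | zero => rfl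
    | succ i ih => rw [a0, ih]
    | pred i ih =>
      rw [← ih, ← a0 (-(i : ℤ) - 1) m, sub_add_cancel]
  have b1 : ∀ m : ℤ, g (0, m) = g (0, 0) := by
    intro m
    induction m using Int.induction_on with
    | zero => rfl
    | succ i ih => rw [a1, ih]
    | pred i ih =>
      rw [← ih, ← a1 0 (-(i : ℤ) - 1), sub_add_cancel]
  rw [b0, b1]

/-- **Main result.** Every locally univalent circle packing for the hexagonal complex in `ℂ` has a
label of the form `c a ^ n b ^ m` with `a, b, c > 0`. -/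
theorem result (z : Vertex → ℂ) (R : Vertex → ℝ) (h : IsCirclePacking z R)
    (hu : LocallyUnivalent z R) :
    ∃ a b c : ℝ, 0 < a ∧ 0 < b ∧ 0 < c ∧ ∀ n m : ℤ, R (n, m) = c * a ^ n * b ^ m := by
  have hR := h.label
  have hconst : ∀ (j : Fin 6) (v : Vertex), Real.log (R (v + dir j)) - Real.log (R v) =
      Real.log (R ((0, 0) + dir j)) - Real.log (R (0, 0)) := by
    intro j v
    exact const_of_step (g := fun v => Real.log (R (v + dir j)) - Real.log (R v))
      (fun v => increment_const h hu j v 0) (fun v => increment_const h hu j v 1) v.1 v.2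
  set α := Real.log (R ((0, 0) + dir 0)) - Real.log (R (0, 0)) with hα
  set β := Real.log (R ((0, 0) + dir 1)) - Real.log (R (0, 0)) with hβ
  have hQ := const_of_step (g := fun v => Real.log (R v) - v.1 * α - v.2 * β)
    (by
      intro v
      have h1 := hconst 0 v
      have e1 : (v + dir 0).1 = v.1 + 1 := by simp [dir]
      have e2 : (v + dir 0).2 = v.2 := by simp [dir]
      simp only [e1, e2]
      push_cast
      linarith)
    (by
      intro v
      have h1 := hconst 1 v
      have e1 : (v + dir 1).1 = v.1 := by simp [dir]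
      have e2 : (v + dir 1).2 = v.2 + 1 := by simp [dir]
      simp only [e1, e2]
      push_cast
      linarith)
  refine ⟨Real.exp α, Real.exp β, R (0, 0), Real.exp_pos _, Real.exp_pos _, hR.pos _, ?_⟩
  intro n m
  have h1 := hQ n m
  simp only [Int.cast_zero, zero_mul, sub_zero] at h1
  have h2 : Real.log (R (n, m)) = Real.log (R (0, 0)) + n * α + m * β := by linarith
  rw [← Real.exp_log (hR.pos (n, m)), h2, Real.exp_add, Real.exp_add, Real.exp_log (hR.pos _),
    mul_comm (n : ℝ) α, mul_comm (m : ℝ) β, Real.exp_mul, Real.exp_mul, Real.rpow_intCast,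
    Real.rpow_intCast]

end Pool.Agent.Results.MP_5725d1_gt.DoyleSpirals
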